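import Mathlib

set_option autoImplicit false

namespace Pool.Agent.Results.MP_851083_pr.Yes

/-- one step of the flattening automaton (`true` = 1) -/
def step (x : ℤ × ℤ → Bool) : ℤ × ℤ → Bool := fun p =>
  max (min (x (p.1, p.2)) (x (p.1, p.2 - 1))) (min (x (p.1 - 1, p.2)) (x (p.1 - 1, p.2 - 1)))

/-- `TR s n` is the configuration at time `t = n - 1` -/
def TR (s : ℤ × ℤ → Bool) (n : ℕ) : ℤ × ℤ → Bool := step^[n] s

def Attractor (s : ℤ × ℤ → Bool) : Prop :=
  ∀ s' : ℤ × ℤ → Bool, {p | s' p ≠ s p}.Finite → {q : (ℤ × ℤ) × ℕ | TR s' q.2 q.1 ≠ TR s q.2 q.1}.Finite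

lemma TR_succ (s : ℤ × ℤ → Bool) (n : ℕ) : TR s (n + 1) = step (TR s n) := Function.iterate_succ_apply' _ _ _

lemma zero (s : ℤ × ℤ → Bool) (c : ℤ) (h : ∀ i, s (i, c) = false) (n : ℕ) :
    ∀ i j, c ≤ j → j ≤ c + n → TR s n (i, j) = false := by
  induction n with
  | zero => intro i j a b; obtain rfl : j = c := by omega
            exact h i
  | succ n ih =>
    intro i j a b
    rw [TR_succ, step]
    by_cases e : j = c
    · simp [ih _ j a (by omega)]
    · simp [ih _ (j - 1) (by omega) (by omega)]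

lemma attr (s : ℤ × ℤ → Bool) (h : ∀ N : ℕ, (∃ c : ℤ, N < c ∧ ∀ i, s (i, c) = false) ∧
    ∃ c : ℤ, c < -N ∧ ∀ i, s (i, c) = false) : Attractor s := by
  intro s' hf
  obtain ⟨N, hN⟩ := (hf.image fun p => p.1.natAbs + p.2.natAbs).bddAbove
  have e : ∀ p : ℤ × ℤ, N < p.1.natAbs + p.2.natAbs → s' p = s p := fun p hp => by
    by_contra c
    exact absurd (hN ⟨p, c, rfl⟩) (by simpa using hp)
  obtain ⟨⟨d, hd, zd⟩, c, hc, zc⟩ := h N
  have zd' : ∀ i, s' (i, d) = false := fun i => (e _ (by simp only; omega)).trans (zd i)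
  have zc' : ∀ i, s' (i, c) = false := fun i => (e _ (by simp only; omega)).trans (zc i)
  have A : ∀ n : ℕ, ∀ i j : ℤ, (i < -N ∨ N + n < i ∨ j < c ∨ d ≤ j) → TR s' n (i, j) = TR s n (i, j) := by
    intro n
    induction n with
    | zero => exact fun i j o => e _ (by simp only; omega)
    | succ n ih =>
      intro i j o
      by_cases q : j = d
      · rw [zero s d zd _ i j q.ge (by omega), zero s' d zd' _ i j q.ge (by omega)]
      · simp only [TR_succ, step]
        rw [ih i j (by omega), ih i (j - 1) (by omega), ih (i - 1) j (by omega), ih (i - 1) (j - 1) (by omega)]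
  refine (((Set.finite_Icc (-N : ℤ) (N + (d - c))).prod (Set.finite_Icc c d)).prod
    (Set.finite_Iic (d - c).toNat)).subset fun ⟨⟨i, j⟩, n⟩ o => ?_
  have a := mt (A n i j) o
  have b : ¬ j ≤ c + n := fun b =>
    o ((zero s' c zc' n i j (by omega) b).trans (zero s c zc n i j (by omega) b).symm)
  simp only [Set.mem_prod, Set.mem_Icc, Set.mem_Iic]
  omega

theorem result : ∃ s : ℤ × ℤ → Bool, Attractor s ∧
    ∀ n, {p | TR s n p = false}.Infinite ∧ {p | TR s n p = true}.Infinite := by
  classical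
  refine ⟨fun p => decide (0 < p.2 ∧ ¬ IsSquare p.2), attr _ fun N => ⟨⟨(N + 1) * (N + 1), by nlinarith, by simp⟩,
    -N - 1, by omega, fun i => by simp⟩, fun n => ⟨?_, ?_⟩⟩
  · refine Set.infinite_of_injective_forall_mem (f := fun i : ℤ => (i, (0 : ℤ))) (fun _ _ e => congrArg Prod.fst e)
      fun i => zero _ 0 (by simp) n i 0 le_rfl (by omega)
  · have : ∀ m ≤ n, ∀ i j : ℤ, (n + 1 : ℤ) * (n + 1) + m < j → j < (n + 2) * (n + 2) →
        TR (fun p => decide (0 < p.2 ∧ ¬ IsSquare p.2)) m (i, j) = true := by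
      intro m
      induction m with
      | zero =>
        intro _ i j a b
        refine decide_eq_true ⟨by nlinarith, fun ⟨r, e⟩ => ?_⟩
        rw [← abs_mul_abs_self] at e
        have := abs_nonneg r
        by_cases c : |r| ≤ n + 1 <;> nlinarith
      | succ m ih =>
        intro hm i j a b
        rw [TR_succ, step, ih (by omega) i j (by omega) b, ih (by omega) i (j - 1) (by omega) (by omega)]
        rfl
    exact Set.infinite_of_injective_forall_mem (f := fun i : ℤ => (i, (n + 1 : ℤ) * (n + 1) + n + 1))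
      (fun _ _ e => congrArg Prod.fst e) fun i => this n le_rfl i _ (by omega) (by nlinarith)

end Pool.Agent.Results.MP_851083_pr.Yes
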